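import Mathlib
import Pool.Agent.U47.QF.Main
import Pool.Agent.U47.QE.Final

/-!
# Vojta's conjecture for the algebraic points of curves above quadratic points of elliptic curves

Let `K` be a number field and `E : y² = x³ + a x + b` an elliptic curve over `K` of any rank.  We
prove that there is ONE set `Exc` of points of `E` of degree two over `K`, of density zero among all
the points of `E` of degree two over `K` (ordered by the height of `x`), such that for all quadratic
points `Q` outside of `Exc`

* `(2 - κ) h(x(Q)) ≤ d(Q) + O(1)` for every `κ > 0`, so almost all the quadratic points of an elliptic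
  curve have a discriminant `≥ H(x) ^ (2 - κ)` (this is the best possible exponent);

* the conjecture of Vojta for algebraic points, `h_K(P) ≤ d(P) + κ h(P) + O(1)`, with the additional
  term `2 h(t(P))` on the left, holds for ALL points `P` above `Q` of ALL smooth projective curves
  `C` over ALL number fields `k ⊇ K` with a finite map `t` to the `x`-line of `E` (with any
  coordinate over `K` on this line) which is unramified outside of finitely many branch points, such
  that the points of `E` above the branch points have degree at most five over `K`.  (This holds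
  if the branch points have degree at most two over `K` or are branch points of `x : E → ℙ¹`.)
  For example `C` can be any curve over `k` with a finite map to `E` (a point of `C` above `Q`).

The points `P` have coordinates in any number field `L ⊇ k`, so they are of unbounded degree over
`ℚ`.  The branch points are the `α_j`, the curve `C` is given by the ring `A` of the functions with
poles only above `t = ∞`, a Dedekind domain which is finite over `k[t]`, and `n_j = dim A / rad (t -
α_j)` is the number of the geometric points of `C` above `α_j`; if `t` is unramified outside of the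
`α_j`, then `h_K(P) = (∑_j (1 - n_j / N) - 2) h(t(P)) + O(√h)`, where `N` is the degree of `t`.
Here heights and discriminants are relative to `K`; multiplying by `[k : K]` gives the inequality
relative to `k`.
-/

set_option autoImplicit false

namespace Pool.Agent.Results.MP_9b9442_nt.CurvesOverEllipticCurves

open Polynomial NumberField Height Module

variable (K : Type) [Field K] [NumberField K]

/-- `(x, y)` is a point of degree two over `K` of the curve `y² = x³ + a x + b`, with coordinates
in the field `L` -/
structure IsQuadratic (a b : 𝓞 K) (L : Type) [Field L] [Algebra K L] (x y : L) : Prop where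
  equation : y ^ 2 = x ^ 3 + algebraMap K L a * x + algebraMap K L b
  degree : finrank K (IntermediateField.adjoin K {x, y}) = 2

/-- the logarithmic height of an element of `L`, normalised relative to `K` -/
noncomputable def ht (L : Type) [Field L] [NumberField L] [Algebra K L] (x : L) : ℝ :=
  logHeight₁ x / finrank K L

/-- the points of degree two over `K` of the curve `y² = x³ + a x + b` with `h(x) ≤ X`, as points
with coordinates in the algebraic closure of `K` -/
def points (a b : 𝓞 K) (X : ℝ) : Set (AlgebraicClosure K × AlgebraicClosure K) :=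
  {p | ∃ (L : Type) (_ : Field L) (_ : NumberField L) (_ : Algebra K L)
    (ι : L →ₐ[K] AlgebraicClosure K) (x y : L), finrank K L = 2 ∧
    IsQuadratic K a b L x y ∧ ht K L x ≤ X ∧ p = (ι x, ι y)}

/-- the logarithmic discriminant of a point with values in the field `L`, relative to `K` -/
noncomputable def logDisc (L : Type) [Field L] [NumberField L] [Algebra K L] : ℝ :=
  Real.log |(discr L : ℝ)| / finrank K L - Real.log |(discr K : ℝ)|

/-- the point `α` of the line (of degree `≤ 1` over the number field `k`) has the property that the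
points of the curve `y² = x³ + a x + b` with `g(x) = α`, where `g` is a fractional linear
transformation, have degree at most five over `K` -/
def SmallDegree (a b : 𝓞 K) (g : Matrix (Fin 2) (Fin 2) K) (k : Type) [Field k] [Algebra K k]
    (α : k) : Prop :=
  ∀ (ι : k →ₐ[K] AlgebraicClosure K) (u v : AlgebraicClosure K),
    v ^ 2 = u ^ 3 + algebraMap K (AlgebraicClosure K) a * u + algebraMap K (AlgebraicClosure K) b →
    ι α * (algebraMap K (AlgebraicClosure K) (g 1 0) * u +
        algebraMap K (AlgebraicClosure K) (g 1 1)) =
      algebraMap K (AlgebraicClosure K) (g 0 0) * u + algebraMap K (AlgebraicClosure K) (g 0 1) →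
    finrank K (IntermediateField.adjoin K {u, v}) ≤ 5

/-- the function `t` on the curve with the ring of functions `A` -/
noncomputable def coord (k A : Type) [Field k] [CommRing A] [Algebra k[X] A] : A :=
  algebraMap k[X] A X

/-- the ideal of the reduced fibre over `c` -/
noncomputable def fibre (k A : Type) [Field k] [CommRing A] [Algebra k A] [Algebra k[X] A]
    (c : k) : Ideal A :=
  (Ideal.span {coord k A - algebraMap k A c}).radical

/-- `∑_j (1 - n_j / N)` for a curve, where `n_j = dim (A / rad (t - α_j))` is the number of the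
geometric points over `α_j` and `N` is the rank of `A` over `k[t]`. If `t` is unramified outside
of the fibres over the `α_j`, this is `2 + (deg K) / N`, where `K` is a canonical divisor of the
curve. -/
noncomputable def degree (k A : Type) [Field k] [CommRing A] [Algebra k A]
    [Algebra k[X] A] {q : ℕ} (α : Fin q → k) : ℝ :=
  ∑ j, (1 - (finrank k (A ⧸ fibre k A (α j)) : ℝ) / finrank k[X] A)

open Pool.Agent.U47.QE Pool.Agent.U47.QF Pool.Agent.TH942 WeierstrassCurve in
/-- **Discriminants of the algebraic points of curves above 100 percent of the quadratic points of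
an elliptic curve.** There is one exceptional set for all number fields `k`, coordinates `g`,
branch points `α`, curves and covers. The number of the quadratic points with `h(x) ≤ X` is of the
order of magnitude `exp (2 X)`. -/
theorem result (a b : 𝓞 K) (hab : 4 * (a : K) ^ 3 + 27 * (b : K) ^ 2 ≠ 0) :
    ∃ Exc : Set (AlgebraicClosure K × AlgebraicClosure K),
      -- the number of the quadratic points
      (∃ c C X₀ : ℝ, 0 < c ∧ ∀ X : ℝ, X₀ ≤ X → (points K a b X).Finite ∧
        c * Real.exp (2 * X) ≤ ((points K a b X).ncard : ℝ) ∧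
        ((points K a b X).ncard : ℝ) ≤ C * Real.exp (2 * X)) ∧
      -- the exceptional set has density zero
      (∀ δ : ℝ, 0 < δ → ∃ X₀ : ℝ, ∀ X : ℝ, X₀ ≤ X →
        ((Exc ∩ points K a b X).ncard : ℝ) ≤ δ * ((points K a b X).ncard : ℝ)) ∧
      -- the discriminants of the quadratic points
      (∀ κ : ℝ, 0 < κ → ∃ c : ℝ, ∀ (L : Type) [Field L] [NumberField L] [Algebra K L]
        (ι : L →ₐ[K] AlgebraicClosure K) (x y : L), finrank K L = 2 → IsQuadratic K a b L x y →
        (ι x, ι y) ∉ Exc → (2 - κ) * ht K L x ≤ logDisc K L + c) ∧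
      -- the points of curves: for all number fields, all coordinates on the line
      ∀ (k : Type) [Field k] [NumberField k] [Algebra K k] (g : Matrix (Fin 2) (Fin 2) K),
        g.det ≠ 0 →
        -- all branch points
        ∀ (q : ℕ) (α : Fin q → k), 0 < q → Function.Injective α →
        (∀ j, SmallDegree K a b g k (α j)) →
        -- all curves over the line
        ∀ (A : Type) [CommRing A] [IsDedekindDomain A] [Algebra k A] [Algebra k[X] A]
          [IsScalarTower k k[X] A] [Module.Finite k[X] A] [FaithfulSMul k[X] A] (κ : ℝ), 0 < κ →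
        ∃ c : ℝ, ∀ (L : Type) [Field L] [NumberField L] [Algebra K L] [Algebra k L]
          [IsScalarTower K k L] (ι : L →ₐ[K] AlgebraicClosure K) (x y : L),
          IsQuadratic K a b L x y → (ι x, ι y) ∉ Exc →
          algebraMap K L (g 1 0) * x + algebraMap K L (g 1 1) ≠ 0 →
          -- all points `P = φ` of the curve above `g(x)`
          ∀ φ : A →ₐ[k] L,
            φ (coord k A) = (algebraMap K L (g 0 0) * x + algebraMap K L (g 0 1)) /
              (algebraMap K L (g 1 0) * x + algebraMap K L (g 1 1)) →
            (degree k A α - κ) * ht K L (φ (coord k A)) ≤ logDisc K L + c := by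
  classical
  obtain ⟨E, hE1, hE2, hE3⟩ := main a b hab
  obtain ⟨C, hC, hfin⟩ := qq_fin a b hab (cntU K)
  obtain ⟨c, X₀, hc, hlow⟩ := qq_low a b hab (cntU K) (cntL K)
  let tp : EP (a : K) (b : K) (AlgebraicClosure K) → AlgebraicClosure K × AlgebraicClosure K :=
    fun P => match P with
      | .zero => (0, 0)
      | .some x y _ => (x, y)
  have hD : ∀ F : Type, ∀ [Field F] [Algebra K F],
      4 * (algebraMap K F (a : K)) ^ 3 + 27 * (algebraMap K F (b : K)) ^ 2 ≠ 0 := fun F _ _ =>
    disc_ne hab F
  have hne : ∀ X P, P ∈ QQ (a : K) (b : K) X → ∃ x y h, P = Affine.Point.some x y h := by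
    rintro X P ⟨s, L, _, _, _, ι, σ, P', h1, h2, h3⟩
    match P', h1, h3 with
    | 0, h1, _ =>
      exfalso
      apply h1.ne
      rw [map_zero]
    | .some x y h, _, h3 =>
      rw [← h3, mp_some]
      exact ⟨_, _, _, rfl⟩
  have htp : ∀ X, Set.InjOn tp (QQ (a : K) (b : K) X) := by
    intro X P hP Q hQ h
    obtain ⟨x, y, h1, rfl⟩ := hne X P hP
    obtain ⟨x', y', h2, rfl⟩ := hne X Q hQ
    have h3 : (x, y) = (x', y') := h
    rw [Prod.mk.injEq] at h3
    exact spt_ext h3.1 h3.2
  -- the field of a quadratic point
  have hnr : ∀ (L : Type) [Field L] [Algebra K L] (x y : L), IsQuadratic K a b L x y →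
      ¬ (x ∈ Set.range (algebraMap K L) ∧ y ∈ Set.range (algebraMap K L)) := by
    rintro L _ _ x y hq ⟨⟨x1, hx1⟩, ⟨y1, hy1⟩⟩
    have h1 : IntermediateField.adjoin K {x, y} = ⊥ := by
      rw [IntermediateField.adjoin_eq_bot_iff]
      rintro z hz
      rw [Set.mem_insert_iff, Set.mem_singleton_iff] at hz
      rw [SetLike.mem_coe, IntermediateField.mem_bot]
      rcases hz with rfl | rfl
      · exact ⟨x1, hx1⟩
      · exact ⟨y1, hy1⟩
    have h2 := hq.degree
    rw [h1, IntermediateField.finrank_bot] at h2
    norm_num at h2
  have hqd : ∀ (L : Type) [Field L] [NumberField L] [Algebra K L] (x y : L), finrank K L = 2 →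
      y ^ 2 = x ^ 3 + algebraMap K L a * x + algebraMap K L b →
      ¬ (x ∈ Set.range (algebraMap K L) ∧ y ∈ Set.range (algebraMap K L)) →
      IsQuadratic K a b L x y := by
    intro L _ _ _ x y hL he hr
    refine ⟨he, ?_⟩
    have hf : FiniteDimensional K L := FiniteDimensional.right ℚ K L
    have h1 := finrank_mul_finrank K (IntermediateField.adjoin K {x, y}) L
    rw [hL] at h1
    have h2 : finrank K (IntermediateField.adjoin K {x, y}) ∣ 2 := ⟨_, h1.symm⟩
    rcases (Nat.dvd_prime Nat.prime_two).1 h2 with h3 | h3
    · exfalso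
      apply hr
      rw [IntermediateField.finrank_eq_one_iff, IntermediateField.adjoin_eq_bot_iff] at h3
      exact ⟨IntermediateField.mem_bot.1 (h3 (Set.mem_insert _ _)),
        IntermediateField.mem_bot.1 (h3 (Set.mem_insert_of_mem _ rfl))⟩
    · exact h3
  have hpts : ∀ X, points K a b X = tp '' QQ (a : K) (b : K) (2 * X) := by
    intro X
    ext p
    constructor
    · rintro ⟨L, _, _, _, ι, x, y, hL, hq, hx, rfl⟩
      have hns : (sw (algebraMap K L (a : K)) (algebraMap K L (b : K))).toAffine.Nonsingular x y :=
        sw_nonsing (hD L) hq.equation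
      obtain ⟨σ, hσ⟩ := exists_conj hL
      obtain ⟨s, hs⟩ := exists_trace hab hσ (Affine.Point.some x y hns : EP (a : K) (b : K) L)
      refine ⟨mp (a : K) (b : K) ι (Affine.Point.some x y hns),
        ⟨s, L, _, ‹_›, _, ι, σ, _, ⟨hσ, ?_, hs⟩, ?_, rfl⟩, ?_⟩
      · rw [mp_some]
        intro h1
        rw [Affine.Point.some.injEq] at h1
        exact hnr L x y hq ⟨(hσ.fix x).1 h1.1, (hσ.fix y).1 h1.2⟩
      · rw [Pool.Agent.U47.QE.sht_some]
        have h1 : logHeight₁ x / (finrank K L : ℝ) ≤ X := hx
        rw [hL] at h1
        push_cast at h1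
        linarith
      · rw [mp_some]
    · rintro ⟨P, ⟨s, L, _, _, _, ι, σ, P', h1, h2, h3⟩, rfl⟩
      match P', h1, h2, h3 with
      | 0, h1, _, _ =>
        exfalso
        apply h1.ne
        rw [map_zero]
      | .some x y h, h1, h2, h3 =>
        refine ⟨L, _, ‹_›, _, ι, x, y, h1.cj.deg, hqd L x y h1.cj.deg (eqL h) ?_, ?_, ?_⟩
        · rintro ⟨hx, hy⟩
          apply h1.ne
          rw [mp_some]
          exact spt_ext ((h1.cj.fix x).2 hx) ((h1.cj.fix y).2 hy)
        · rw [Pool.Agent.U47.QE.sht_some] at h2
          change logHeight₁ x / (finrank K L : ℝ) ≤ X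
          rw [h1.cj.deg]
          push_cast
          linarith
        · rw [← h3, mp_some]
  have hcard : ∀ X, (points K a b X).ncard = (QQ (a : K) (b : K) (2 * X)).ncard := by
    intro X
    rw [hpts, (htp _).ncard_image]
  refine ⟨{q | ∃ h, (Affine.Point.some q.1 q.2 h : EP (a : K) (b : K) (AlgebraicClosure K)) ∈ E},
    ⟨c, C, X₀ / 2, hc, fun X hX => ⟨?_, ?_, ?_⟩⟩, ?_, ?_, ?_⟩
  · rw [hpts]
    exact (hfin _).1.image _
  · rw [hcard]
    exact hlow _ (by linarith)
  · rw [hcard]
    exact (hfin _).2
  · intro δ hδ
    obtain ⟨X₁, hX₁⟩ := hE1 (δ * c) (by positivity)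
    refine ⟨max (X₀ / 2) (X₁ / 2), fun X hX => ?_⟩
    have h1 := hX₁ (2 * X) (by
      have := (le_max_right _ _).trans hX
      linarith)
    have h2 := hlow (2 * X) (by
      have := (le_max_left _ _).trans hX
      linarith)
    have h3 : ({q | ∃ h, (Affine.Point.some q.1 q.2 h : EP (a : K) (b : K) (AlgebraicClosure K)) ∈ E}
        ∩ points K a b X).ncard ≤ (E ∩ QQ (a : K) (b : K) (2 * X)).ncard := by
      rw [← ((htp (2 * X)).mono Set.inter_subset_right).ncard_image]
      refine Set.ncard_le_ncard ?_ (((hfin _).1.subset Set.inter_subset_right).image _)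
      rintro q ⟨⟨h, hq⟩, hq2⟩
      rw [hpts] at hq2
      obtain ⟨P, hP, hPq⟩ := hq2
      obtain ⟨x, y, h', rfl⟩ := hne _ P hP
      have h4 : (x, y) = q := hPq
      subst h4
      exact ⟨_, ⟨hq, hP⟩, rfl⟩
    have h4 : (({q | ∃ h, (Affine.Point.some q.1 q.2 h : EP (a : K) (b : K) (AlgebraicClosure K))
        ∈ E} ∩ points K a b X).ncard : ℝ) ≤ ((E ∩ QQ (a : K) (b : K) (2 * X)).ncard : ℝ) := by
      exact_mod_cast h3
    rw [hcard]
    have h5 := mul_le_mul_of_nonneg_left h2 hδ.le
    linarith
  · intro κ hκ
    obtain ⟨c', hc'⟩ := hE2 κ hκ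
    refine ⟨c' / 2 + Real.log |(discr K : ℝ)|, ?_⟩
    intro L _ _ _ ι x y hL hq hexc
    have hns : (sw (algebraMap K L (a : K)) (algebraMap K L (b : K))).toAffine.Nonsingular x y :=
      sw_nonsing (hD L) hq.equation
    have h1 := hc' L ι x y hns hL (hnr L x y hq) (by
      rw [mp_some]
      intro h
      exact hexc ⟨_, h⟩)
    rw [ht, logDisc, hL]
    push_cast
    linarith
  · intro k _ _ _ g hg q α hq hα hsml A _ _ _ _ _ _ _ κ hκ
    obtain ⟨c', hc'⟩ := hE3 k ![g 0 0, g 0 1, g 1 0, g 1 1] (by
      rw [Matrix.det_fin_two] at hg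
      exact hg) q α hq hα (fun ι j => hsml j ι) A κ hκ
    refine ⟨finrank ℚ K * c' + Real.log |(discr K : ℝ)|, ?_⟩
    intro L _ _ _ _ _ ι x y hQ hexc hden φ hφ
    have hns : (sw (algebraMap K L (a : K)) (algebraMap K L (b : K))).toAffine.Nonsingular x y :=
      sw_nonsing (hD L) hQ.equation
    have hfd : FiniteDimensional K L := FiniteDimensional.right ℚ K L
    have h1 := hc' L φ ι x y hns hQ.degree (by
      rw [mp_some]
      intro h
      exact hexc ⟨_, h⟩) hden (by
      change φ (coord k A) * (algebraMap K L (g 1 0) * x + algebraMap K L (g 1 1)) =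
        algebraMap K L (g 0 0) * x + algebraMap K L (g 0 1)
      rw [hφ, div_mul_cancel₀ _ hden])
    have hdeg : degree k A α = (q : ℝ) - (∑ j, (finrank k (A ⧸ fib k A (α j)) : ℝ)) /
        finrank k[X] A := by
      unfold degree
      rw [Finset.sum_sub_distrib, Finset.sum_const, Finset.card_univ, Fintype.card_fin,
        nsmul_eq_mul, mul_one, Finset.sum_div]
      rfl
    rw [← hdeg] at h1
    have h2 : (finrank ℚ L : ℝ) = finrank ℚ K * finrank K L := by
      rw [← Nat.cast_mul, finrank_mul_finrank]
    have h3 : (0 : ℝ) < finrank K L := by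
      have : 0 < finrank K L := finrank_pos
      exact_mod_cast this
    rw [h2] at h1
    have h4 : ((degree k A α - κ) * logHeight₁ (φ (coord k A))) / finrank K L ≤
        (Real.log |(discr L : ℝ)| + finrank ℚ K * finrank K L * c') / finrank K L :=
      div_le_div_of_nonneg_right h1 h3.le
    have h5 : (Real.log |(discr L : ℝ)| + finrank ℚ K * finrank K L * c') / finrank K L =
        Real.log |(discr L : ℝ)| / finrank K L + finrank ℚ K * c' := by
      field_simp
    rw [h5] at h4
    rw [ht, logDisc, ← mul_div_assoc]
    linarith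

end Pool.Agent.Results.MP_9b9442_nt.CurvesOverEllipticCurves
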