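import Pool.Agent.U155.MV.A
import Pool.Agent.Results.MP_651af7_nt.UniformCurves

/-!
# Vojta's inequality at the good algebraic approximations of almost every number, on all curves

Let `a_1, …, a_q` be `q ≥ 3` distinct rational numbers. We consider ALL smooth projective curves `X` over
ALL number fields with ALL finite maps `t : X → ℙ¹` which are unramified outside the fibres over the `a_j`
(by Belyi's theorem every curve over every number field has such maps). Let `A` be the ring of the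
functions on `X` with poles only over `∞`, a Dedekind domain, finite over `ℚ[t]`, and let
`y_{j 0} = t - a_j, y_{j 1}, …` be generators of the radical of `(t - a_j)`, so that
`degree - 2 = q - (∑_j dim (A / (y_{j 0}, y_{j 1}, …))) / N - 2` is `deg K_X / deg t`. The points `P` of
`X` (not over `∞`) over a number field `L` are the homomorphisms `φ : A → L`.

Vojta's inequality `h_{K_X}(P) ≤ d(P) + ε h(P) + C₀` is open for the points of bounded degree of the curves
of genus at least two. We prove it, for all curves at once, for the points `P` for which `x = t(P)` is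
close to a typical point `ξ`: let `M(x)` be the Mahler measure of `x`. For every `r ≥ 2` there is an
explicit `e < r + 1` (`e = 3 / 4` for `q = 3`, `r = 2`) such that for every `w > e` and ALMOST EVERY REAL
`ξ` the inequality holds on ALL curves for ALL points `P` above the algebraic numbers `x` of degree `r`
with `|x - ξ| ≤ M(x)^(-w)`. Almost all real `ξ` have infinitely many approximations `x` of this kind for
every `w < r + 1` (theorem of Sprindžuk; not proved here). The same holds for almost all complex `ξ`, with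
`w > e / 2`, and for simultaneous approximations of almost all points of `ℝ^m` by `m` functions of `x`
(for example by conjugates of `x`), with `w > e / m`; for arbitrary `w > 0` the exceptional `ξ`, in any
metric space, form a set of Hausdorff dimension at most `e / w`. The exceptional set of the `ξ` does not
depend on the curve.
-/

set_option autoImplicit false

namespace Pool.Agent.Results.MP_9b9442_nt.MetricApproximations

open Polynomial IsDedekindDomain NumberField MeasureTheory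
open Pool.Agent.Results.MP_651af7_nt.UniformCurves (height coord proximity logDisc degree alpha exponent)

/-- `x` is an algebraic number of degree `r`, a root of the irreducible integral polynomial `f` -/
def IsRoot (r : ℕ) (x : ℂ) (f : ℤ[X]) : Prop :=
  Irreducible f ∧ f.natDegree = r ∧ aeval x f = 0

/-- the Mahler measure `M(x) = exp (r h(x))` of the roots `x` of `f` -/
noncomputable def mahler (f : ℤ[X]) : ℝ := (f.map (Int.castRingHom ℂ)).mahlerMeasure

/-- Vojta's inequality `m_S(F, P) + (degree - κ - ε) h(x) ≤ d(L) + ∑_{p ∈ S} log p + C₀` for all number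
fields `L`, all points `P` over `L` of the curve with `t(P) = x` and all finite sets `S` of primes (for
`κ = 2`, `S = ∅` it contains `h_{K_X}(P) / deg t ≤ d(P) + ε h(x) + C₀`). -/
def Holds {A : Type} [CommRing A] [Algebra ℚ A] [Algebra ℚ[X] A] {q : ℕ} (u : Fin q → ℕ)
    (y : ∀ j, Fin (u j + 1) → A) (κ ε C₀ : ℝ) (x : ℂ) (f : ℤ[X]) : Prop :=
  ∀ (L : IntermediateField ℚ ℂ) [NumberField L] (φ : A →+* L), (φ (coord A) : ℂ) = x →
    ∀ S : Finset ℕ, (∀ p ∈ S, p.Prime) →
      proximity S u y L φ + (degree u y - κ - ε) * height f ≤ logDisc L + ∑ p ∈ S, Real.log p + C₀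

/-- On all curves over all number fields which are finite over the `t`-line, with the fibres over
`a_1, …, a_q` taken into account (`y_{j 0} = t - a_j, y_{j 1}, …` elements of the radical of the ideal
`(t - a_j)`, for example generators) and for all `ε > 0` Vojta's inequality holds, with some constant
`C₀`, above all the numbers `x` (roots of `f`) with the property `Near`. -/
def OnAllCurves {q : ℕ} (a : Fin q → ℚ) (κ : ℝ) (Near : ℂ → ℤ[X] → Prop) : Prop :=
  ∀ (A : Type) [CommRing A] [IsDedekindDomain A] [Algebra ℚ A] [Algebra ℚ[X] A]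
    [IsScalarTower ℚ ℚ[X] A] [Module.Finite ℚ[X] A] [FaithfulSMul ℚ[X] A]
    (u : Fin q → ℕ) (y : ∀ j, Fin (u j + 1) → A),
    (∀ j, y j 0 = coord A - algebraMap ℚ[X] A (C (a j))) →
    (∀ j i, y j i ∈ (Ideal.span {coord A - algebraMap ℚ[X] A (C (a j))}).radical) →
    ∀ ε : ℝ, 0 < ε → ∃ C₀ : ℝ, ∀ (x : ℂ) (f : ℤ[X]), Near x f → Holds u y κ ε C₀ x f

lemma onAll {q : ℕ} (hq : 3 ≤ q) (a : Fin q → ℚ) (κ : ℝ) {r : ℕ} (hr : 2 ≤ r)
    (N : ℂ → ℤ[X] → Prop)
    (hF : {x | x ∈ Pool.Agent.R337.UE.exc a κ ∧ ∃ f : ℤ[X], Irreducible f ∧ f.natDegree = r ∧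
      aeval x f = 0 ∧ N x f}.Finite) :
    OnAllCurves a κ (fun x f => IsRoot r x f ∧ N x f) := by
  intro A _ _ _ _ _ _ _ u y hy0 hyr ε hε
  obtain ⟨C₀, hC₀⟩ := Pool.Agent.U155.MV.absorb A q hq a κ u y hy0 hyr ε hε _ hF
  refine ⟨C₀, ?_⟩
  rintro x f ⟨⟨hf, hd, hx⟩, hN⟩ L _ φ hφ S hS
  have h1 : x ∉ Pool.Agent.R337.UE.exc a κ ∨ x ∈ {x | x ∈ Pool.Agent.R337.UE.exc a κ ∧
      ∃ f : ℤ[X], Irreducible f ∧ f.natDegree = r ∧ aeval x f = 0 ∧ N x f} := by
    by_cases h : x ∈ Pool.Agent.R337.UE.exc a κ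
    · exact Or.inr ⟨h, f, hf, hd, hx, hN⟩
    · exact Or.inl h
  obtain ⟨h2, h3⟩ := hC₀ x h1 f hf (by omega) hx L φ hφ
  rw [Pool.Agent.Results.MP_651af7_nt.UniformCurves.proximity_eq S u y L φ h2]
  exact h3 S hS

/-- **Vojta's inequality on all curves over all number fields at the good approximations of almost
every number.** Let `η > 0`. There is `c ≥ 1` with the following properties; put
`e = exponent (alpha r c η) r q κ`.

(1) `e < r + 1` for `κ ≥ 0`.

(2) Let `a_1, …, a_q` be `q ≥ 3` distinct rational numbers, `κ ≤ q`, `r ≥ 2`, `Y` a metric space, `ι` any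
map from `ℂ` to `Y` and `w > 0`. For all `ξ ∈ Y` outside a set of Hausdorff dimension at most
`max e 0 / w` the inequality holds on all curves above all algebraic numbers `x` of degree `r` with
`dist (ι x) ξ ≤ M(x) ^ (-w)`.

(3) For almost every real number `ξ`, for all `q ≥ 3`, all distinct rational `a_1, …, a_q`, all `r ≥ 2`
and all `w > max e 0`, `e` with `κ = 2`, Vojta's inequality (`κ = 2`) holds on all curves above all
algebraic numbers `x` of degree `r` with `|x - ξ| ≤ M(x) ^ (-w)`.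

(4) The same holds for almost every complex number `ξ` and all `w > max e 0 / 2`.

(5) Let `m ≥ 1` and let `ι` be any map from `ℂ` to `ℝ ^ m`. The same holds for almost every `ξ ∈ ℝ ^ m`,
all `w > max e 0 / m` and all `x` of degree `r` with `|ι_i(x) - ξ_i| ≤ M(x) ^ (-w)` for all `i`. -/
theorem result : ∀ η : ℝ, 0 < η → ∃ c : ℝ, 1 ≤ c ∧
    (∀ (r q : ℕ) (κ : ℝ), 2 ≤ r → 3 ≤ q → 0 ≤ κ → exponent (alpha r c η) r q κ < r + 1) ∧
    (∀ q : ℕ, 3 ≤ q → ∀ a : Fin q → ℚ, Function.Injective a → ∀ κ : ℝ, κ ≤ q →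
      ∀ r : ℕ, 2 ≤ r → ∀ (Y : Type) [MetricSpace Y] (ι : ℂ → Y) (w : ℝ), 0 < w →
      ∃ Z : Set Y, dimH Z ≤ ENNReal.ofReal (max (exponent (alpha r c η) r q κ) 0 / w) ∧
        ∀ ξ : Y, ξ ∉ Z → OnAllCurves a κ
          (fun x f => IsRoot r x f ∧ dist (ι x) ξ ≤ mahler f ^ (-w))) ∧
    (∀ᵐ ξ : ℝ, ∀ q : ℕ, 3 ≤ q → ∀ a : Fin q → ℚ, Function.Injective a → ∀ r : ℕ, 2 ≤ r →
      ∀ w : ℝ, max (exponent (alpha r c η) r q 2) 0 < w →
      OnAllCurves a 2 (fun x f => IsRoot r x f ∧ ‖x - (ξ : ℂ)‖ ≤ mahler f ^ (-w))) ∧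
    (∀ᵐ ξ : ℂ, ∀ q : ℕ, 3 ≤ q → ∀ a : Fin q → ℚ, Function.Injective a → ∀ r : ℕ, 2 ≤ r →
      ∀ w : ℝ, max (exponent (alpha r c η) r q 2) 0 / 2 < w →
      OnAllCurves a 2 (fun x f => IsRoot r x f ∧ ‖x - ξ‖ ≤ mahler f ^ (-w))) ∧
    (∀ m : ℕ, 0 < m → ∀ ι : ℂ → Fin m → ℝ, ∀ᵐ ξ : Fin m → ℝ,
      ∀ q : ℕ, 3 ≤ q → ∀ a : Fin q → ℚ, Function.Injective a → ∀ r : ℕ, 2 ≤ r →
      ∀ w : ℝ, max (exponent (alpha r c η) r q 2) 0 / m < w →
      OnAllCurves a 2
        (fun x f => IsRoot r x f ∧ ∀ i, |ι x i - ξ i| ≤ mahler f ^ (-w))) := by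
  intro η hη
  obtain ⟨c, hc, hcount⟩ := Pool.Agent.R337.UE.exc_count η hη
  have h2q : ∀ q : ℕ, 3 ≤ q → (2 : ℝ) ≤ q := fun q hq => by
    have : (3 : ℝ) ≤ q := by exact_mod_cast hq
    linarith
  refine ⟨c, hc, ?_, ?_, ?_, ?_, ?_⟩
  · intro r q κ hr hq hκ
    exact Pool.Agent.R337.UE.exponent_lt hr hq hc hη hκ
  · intro q hq a ha κ hκ r hr Y _ ι w hw
    obtain ⟨Z, hZ, hZ2⟩ := Pool.Agent.U155.MV.near_dim a κ hr
      (fun δ hδ => hcount r q hr hq a ha κ δ hκ hδ) ι hw
    exact ⟨Z, hZ, fun ξ hξ => onAll hq a κ hr _ (hZ2 ξ hξ)⟩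
  · have key : ∀ (q : ℕ) (a : Fin q → ℚ) (r : ℕ), ∀ᵐ ξ : ℝ, 3 ≤ q → Function.Injective a → 2 ≤ r →
        ∀ w : ℝ, max (exponent (alpha r c η) r q 2) 0 < w →
        OnAllCurves a 2 (fun x f => IsRoot r x f ∧ ‖x - (ξ : ℂ)‖ ≤ mahler f ^ (-w)) := by
      intro q a r
      by_cases h : 3 ≤ q ∧ Function.Injective a ∧ 2 ≤ r
      · obtain ⟨hq, ha, hr⟩ := h
        filter_upwards [Pool.Agent.U155.MV.near_re a 2 hr
          (fun δ hδ => hcount r q hr hq a ha 2 δ (h2q q hq) hδ)] with ξ hξ _ _ _ w hw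
        exact onAll hq a 2 hr _ (hξ w hw)
      · exact Filter.Eventually.of_forall fun ξ h1 h2 h3 => absurd ⟨h1, h2, h3⟩ h
    have key2 : ∀ᵐ ξ : ℝ, ∀ (q : ℕ) (a : Fin q → ℚ) (r : ℕ), 3 ≤ q → Function.Injective a →
        2 ≤ r → ∀ w : ℝ, max (exponent (alpha r c η) r q 2) 0 < w →
        OnAllCurves a 2 (fun x f => IsRoot r x f ∧ ‖x - (ξ : ℂ)‖ ≤ mahler f ^ (-w)) := by
      rw [ae_all_iff]
      intro q
      rw [ae_all_iff]
      intro a
      rw [ae_all_iff]
      exact key q a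
    filter_upwards [key2] with ξ hξ q hq a ha r hr
    exact hξ q a r hq ha hr
  · have key : ∀ (q : ℕ) (a : Fin q → ℚ) (r : ℕ), ∀ᵐ ξ : ℂ, 3 ≤ q → Function.Injective a → 2 ≤ r →
        ∀ w : ℝ, max (exponent (alpha r c η) r q 2) 0 / 2 < w →
        OnAllCurves a 2 (fun x f => IsRoot r x f ∧ ‖x - ξ‖ ≤ mahler f ^ (-w)) := by
      intro q a r
      by_cases h : 3 ≤ q ∧ Function.Injective a ∧ 2 ≤ r
      · obtain ⟨hq, ha, hr⟩ := h
        filter_upwards [Pool.Agent.U155.MV.near_im a 2 hr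
          (fun δ hδ => hcount r q hr hq a ha 2 δ (h2q q hq) hδ)] with ξ hξ _ _ _ w hw
        exact onAll hq a 2 hr _ (hξ w hw)
      · exact Filter.Eventually.of_forall fun ξ h1 h2 h3 => absurd ⟨h1, h2, h3⟩ h
    have key2 : ∀ᵐ ξ : ℂ, ∀ (q : ℕ) (a : Fin q → ℚ) (r : ℕ), 3 ≤ q → Function.Injective a →
        2 ≤ r → ∀ w : ℝ, max (exponent (alpha r c η) r q 2) 0 / 2 < w →
        OnAllCurves a 2 (fun x f => IsRoot r x f ∧ ‖x - ξ‖ ≤ mahler f ^ (-w)) := by
      rw [ae_all_iff]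
      intro q
      rw [ae_all_iff]
      intro a
      rw [ae_all_iff]
      exact key q a
    filter_upwards [key2] with ξ hξ q hq a ha r hr
    exact hξ q a r hq ha hr
  · intro m hm ι
    have key : ∀ (q : ℕ) (a : Fin q → ℚ) (r : ℕ), ∀ᵐ ξ : Fin m → ℝ, 3 ≤ q →
        Function.Injective a → 2 ≤ r →
        ∀ w : ℝ, max (exponent (alpha r c η) r q 2) 0 / m < w →
        OnAllCurves a 2 (fun x f => IsRoot r x f ∧ ∀ i, |ι x i - ξ i| ≤ mahler f ^ (-w)) := by
      intro q a r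
      by_cases h : 3 ≤ q ∧ Function.Injective a ∧ 2 ≤ r
      · obtain ⟨hq, ha, hr⟩ := h
        filter_upwards [Pool.Agent.U155.MV.near_ae a 2 hr
          (fun δ hδ => hcount r q hr hq a ha 2 δ (h2q q hq) hδ) hm ι] with ξ hξ _ _ _ w hw
        exact onAll hq a 2 hr _ (hξ w hw)
      · exact Filter.Eventually.of_forall fun ξ h1 h2 h3 => absurd ⟨h1, h2, h3⟩ h
    have key2 : ∀ᵐ ξ : Fin m → ℝ, ∀ (q : ℕ) (a : Fin q → ℚ) (r : ℕ), 3 ≤ q →
        Function.Injective a → 2 ≤ r → ∀ w : ℝ, max (exponent (alpha r c η) r q 2) 0 / m < w →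
        OnAllCurves a 2 (fun x f => IsRoot r x f ∧ ∀ i, |ι x i - ξ i| ≤ mahler f ^ (-w)) := by
      rw [ae_all_iff]
      intro q
      rw [ae_all_iff]
      intro a
      rw [ae_all_iff]
      exact key q a
    filter_upwards [key2] with ξ hξ q hq a ha r hr
    exact hξ q a r hq ha hr

end Pool.Agent.Results.MP_9b9442_nt.MetricApproximations
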