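import Pool.Agent.U292.VC.Disc
import Pool.Agent.R870.RC.Cov
import Pool.Agent.Results.MP_a41896_nt.AlmostAllHypersurfaces

/-!
# Vojta's inequality with discriminant term for ALL closed points above ALL rational points of
# height at most `H ^ (1 + κ / D)`, on 100 percent of the abelian covers of projective space

`F_1, …, F_s` run through all forms of degrees `d_1, …, d_s` in `n + 1` variables with integer
coefficients of absolute value at most `H`, `D = ∑ d_j ≥ n + 2`. We consider all abelian covers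
`π : X → ℙ^n` over `ℚ` with branch divisors `D_j : F_j = 0`, that is, the normalisation of
`y_i ^ {E_i} = c_i ∏_j F_j ^ {a_ij}`, `1 ≤ i ≤ t` (`E_i ∣ ∑_j a_ij d_j`; the `y_i` are divided by the
appropriate powers of a linear form), for any number `t` of equations of any degrees `E_i` with any
constants `c_i`. The ramification index of `X` over `D_j` is `e_j = lcm_i (E_i / gcd (E_i, a_ij))`, so
that `K_X = π^* (K_{ℙ^n} + ∑_j (1 - 1 / e_j) D_j)` and
`h_{K_X}(P) = (∑_j (1 - 1 / e_j) d_j - n - 1) h(π(P))`.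
The only condition on `X` is the toric criterion `Canonical` for canonical singularities above a
divisor with normal crossings. It holds for all fibre products `y_j ^ {m_j} = c_j F_j` of cyclic
covers (they are smooth if the `D_j` have normal crossings; `m_j ≥ 1` arbitrary), for all covers of
exponent two, and for the cyclic covers `y ^ e = c ∏ F_j ^ {a_j}` with `a_j ∣ e`.

Theorem: for all `ε > 0` and `0 < κ ≤ 1` there are `η > 0` and `C`, depending on `n`, the `d_j`, `ε` and
`κ` only, such that for all `H ≥ 1`, for all but a proportion `C H ^ (-η)` of the `(F_j)`: ALL closed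
points `P` (of any degree) of ALL these covers `X` above ALL rational points `x` of height at most
`H ^ (1 + κ / D)` off the branch divisors satisfy
`h_{K_X}(P) + (∑_j (1 - 1 / e_j) - κ) log H ≤ d(P) + ε h(x) + ∑_{p ∈ S} log p + C`,
where `S` is any set of primes outside of which the `c_i` are units; more generally every number
field `L` with the `y_i` in `L` takes the place of `ℚ(P)`. There are no exceptional points.

In particular, if `∑_j (1 - 1 / e_j) d_j ≥ n + 1 + ε` (so `X` is of general type) then all points of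
`X` above these `x` have `d(P) ≥ (∑_j (1 - 1 / e_j) - κ) log H - ∑_{p ∈ S} log p - C`: `X` has no
points of small discriminant there, for all `X` with the same branch divisors at once.
-/

set_option autoImplicit false

namespace Pool.Agent.Results.MP_9b9442_nt.RandomAbelianCovers

open NumberField IsDedekindDomain MvPolynomial
open Pool.Agent.U292.VC (ram Canonical)
open Pool.Agent.R870.RC (Systems)
open Pool.Agent.Results.MP_a41896_nt.AlmostAllHypersurfaces (Primitive height)

/-- the logarithmic discriminant `log |disc L| / [L : ℚ]` -/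
noncomputable def logDisc (L : Type) [Field L] [NumberField L] : ℝ :=
  Real.log |(discr L : ℝ)| / Module.finrank ℚ L

/-- Vojta's inequality for all points, over all number fields `L`, of all the abelian covers branched
along the `F_j = 0` above all rational points `x` of height at most `H ^ (1 + κ / D)`. -/
def Holds (n : ℕ) {s : ℕ} (d : Fin s → ℕ) (ε κ C : ℝ) (H : ℕ)
    (F : Fin s → MvPolynomial (Fin (n + 1)) ℤ) : Prop :=
  ∀ x : Fin (n + 1) → ℤ, Primitive x →
    (∀ j, |(x j : ℝ)| ≤ (H : ℝ) ^ (1 + κ / ∑ j, (d j : ℝ))) → (∀ j, eval x (F j) ≠ 0) →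
    ∀ (L : Type) (_ : Field L) (_ : NumberField L) (S : Finset ℕ) (t : ℕ) (E : Fin t → ℕ)
      (a : Fin t → Fin s → ℕ) (c y : Fin t → L),
      (∀ p ∈ S, p.Prime) → (∀ i, 1 ≤ E i) → Canonical E a →
      (∀ w : HeightOneSpectrum (𝓞 L), (∀ p ∈ S, (p : 𝓞 L) ∉ w.asIdeal) →
        ∀ i, FinitePlace.mk w (c i) = 1) →
      (∀ i, y i ^ E i = c i * ∏ j, ((eval x (F j) : ℤ) : L) ^ a i j) →
      (∑ j, (1 - 1 / (ram E a j : ℝ)) * d j - (n + 1) - ε) * height x +
          (∑ j, (1 - 1 / (ram E a j : ℝ)) - κ) * Real.log H ≤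
        logDisc L + ∑ p ∈ S, Real.log p + C

theorem height_nonneg {n : ℕ} (x : Fin (n + 1) → ℤ) : 0 ≤ height x := by
  unfold height
  exact Real.log_natCast_nonneg _

/-- the trivial upper bound for the values -/
theorem log_value {n d H : ℕ} (hH : 1 ≤ H) {F : MvPolynomial (Fin (n + 1)) ℤ}
    (hF : F ∈ Pool.Agent.R870.RC.Forms n d H) (x : Fin (n + 1) → ℤ)
    (h0 : eval x F ≠ 0) :
    Real.log |((eval x F : ℤ) : ℝ)| ≤
      Real.log ((Pool.Agent.R870.RC.Mo n d).card : ℝ) + Real.log H + d * height x := by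
  set b : ℕ := Finset.univ.sup fun j => (x j).natAbs with hb
  have h1 : ∀ i, |x i| ≤ (b : ℤ) := by
    intro i
    rw [Int.abs_eq_natAbs]
    exact_mod_cast Finset.le_sup (f := fun j => (x j).natAbs) (Finset.mem_univ i)
  have h2 := Pool.Agent.R870.RC.abs_eval_le hF x b h1
  set M : ℕ := (Pool.Agent.R870.RC.Mo n d).card with hM
  have h3 : 0 < |eval x F| := abs_pos.2 h0
  have h4 : 0 < M * H * b ^ d := by
    have : (0 : ℤ) < ((M * H * b ^ d : ℕ) : ℤ) := h3.trans_le h2
    exact_mod_cast this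
  have h5 : M ≠ 0 := by rintro h; rw [h] at h4; simp at h4
  have h6 : b ^ d ≠ 0 := by rintro h; rw [h] at h4; simp at h4
  have h7 : |((eval x F : ℤ) : ℝ)| ≤ (M : ℝ) * H * (b : ℝ) ^ d := by
    have : ((|eval x F| : ℤ) : ℝ) ≤ (((M * H * b ^ d : ℕ) : ℤ) : ℝ) := by exact_mod_cast h2
    push_cast at this
    exact this
  have hMr : (0 : ℝ) < M := by exact_mod_cast Nat.pos_of_ne_zero h5
  have hHr : (0 : ℝ) < H := by exact_mod_cast hH
  have hbr : (0 : ℝ) < (b : ℝ) ^ d := by exact_mod_cast Nat.pos_of_ne_zero h6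
  have h8 : (0 : ℝ) < |((eval x F : ℤ) : ℝ)| := by
    rw [abs_pos]
    exact_mod_cast h0
  refine (Real.log_le_log h8 h7).trans (le_of_eq ?_)
  rw [Real.log_mul (mul_pos hMr hHr).ne' hbr.ne', Real.log_mul hMr.ne' hHr.ne', Real.log_pow]
  rfl

/-- **Vojta's inequality for all points of 100 percent of the abelian covers of `ℙ^n` above all
rational points of bounded height.** Let `D = ∑ d_j ≥ n + 2`, `ε > 0` and `0 < κ ≤ 1`. There are
`η > 0` and `C` such that for all `H ≥ 1`, for all but a proportion `C H ^ (-η)` of the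
`(2 H + 1) ^ (∑ binom(n + d_j, d_j))` systems `F` of forms of degrees `d_j` in `n + 1` variables with
integer coefficients of absolute value at most `H`, for ALL primitive `x` with
`|x_i| ≤ H ^ (1 + κ / D)` and `F_j(x) ≠ 0`, ALL number fields `L`, ALL finite sets `S` of primes, ALL
`t`, `E_i ≥ 1`, `a_ij` which satisfy the criterion for canonical singularities, ALL `c_i` in `L` which
are units outside `S` and ALL `y_i` in `L` with `y_i ^ E_i = c_i ∏_j F_j(x) ^ a_ij`:
`(∑_j (1 - 1 / e_j) d_j - n - 1 - ε) h(x) + (∑_j (1 - 1 / e_j) - κ) log H ≤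
  log |disc L| / [L : ℚ] + ∑_{p ∈ S} log p + C`, `e_j = lcm_i (E_i / gcd (E_i, a_ij))`.
The criterion holds for all fibre products of cyclic covers (with `e_j = m_j`), for all covers of
exponent two and for the cyclic covers `y ^ e = c ∏_j F_j ^ a_j`, `a_j ∣ e` (with `e_j = e / a_j`). -/
theorem result (n s : ℕ) (d : Fin s → ℕ) (hD : n + 2 ≤ ∑ j, d j) :
    (∀ ε κ : ℝ, 0 < ε → 0 < κ → κ ≤ 1 → ∃ η C : ℝ, 0 < η ∧ ∀ H : ℕ, 1 ≤ H →
      (Systems n d H).ncard = (2 * H + 1) ^ (∑ j, (n + d j).choose (d j)) ∧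
      {F ∈ Systems n d H | ¬ Holds n d ε κ C H F}.Finite ∧
      (({F ∈ Systems n d H | ¬ Holds n d ε κ C H F}.ncard : ℕ) : ℝ) ≤
        C * (H : ℝ) ^ (-η) * ((Systems n d H).ncard : ℝ)) ∧
    (∀ m : Fin s → ℕ, (∀ j, 1 ≤ m j) → Canonical m (fun i j => if i = j then 1 else 0) ∧
      ∀ j, ram m (fun i j => if i = j then 1 else 0) j = m j) ∧
    (∀ (t : ℕ) (a : Fin t → Fin s → ℕ), Canonical (fun _ => 2) a) ∧
    (∀ (e : ℕ) (a : Fin s → ℕ), 1 ≤ e → (∀ j, a j ∣ e) →
      Canonical (fun _ : Fin 1 => e) (fun _ => a)) := by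
  classical
  refine ⟨?_, fun m hm => ⟨Pool.Agent.U292.VC.canonical_fibre m hm,
    Pool.Agent.U292.VC.ram_fibre m hm⟩, fun t a => Pool.Agent.U292.VC.canonical_two a,
    fun e a he ha => Pool.Agent.U292.VC.canonical_cyclic e he a ha⟩
  intro ε κ hε hκ hκ1
  set D : ℝ := ∑ j, (d j : ℝ) with hDdef
  have hDn : (n : ℝ) + 2 ≤ D := by
    rw [hDdef]
    exact_mod_cast hD
  have hn0 : (0 : ℝ) ≤ n := Nat.cast_nonneg n
  have hD0 : 0 < D := by linarith
  have hs1 : 1 ≤ s := by
    by_contra hc
    have h1 : s = 0 := by omega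
    subst h1
    simp at hD
  have hs : (1 : ℝ) ≤ s := by exact_mod_cast hs1
  set ε' : ℝ := min ε (D - n - 1) with hε'
  have hε'0 : 0 < ε' := lt_min hε (by linarith)
  set τ : ℝ := D - n - 1 - ε' with hτ
  have hτ0 : 0 ≤ τ := by
    have := min_le_right ε (D - n - 1)
    rw [← hε'] at this
    linarith
  have hτε : D - n - 1 - ε ≤ τ := by
    have := min_le_left ε (D - n - 1)
    rw [← hε'] at this
    linarith
  set θ : ℝ := 1 + κ / D with hθ
  have hκD : 0 < κ / D := div_pos hκ hD0
  have hθ1 : 1 ≤ θ := by linarith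
  set l : ℝ := s - κ with hl
  have hl0 : 0 ≤ l := by linarith
  have hco : ∀ i : Fin s, Pool.Agent.Results.MP_a41896_nt.AlmostAllHypersurfaces.coefficient
      (fun _ : Fin s => 1) Finset.univ i = 1 := by
    intro i
    unfold Pool.Agent.Results.MP_a41896_nt.AlmostAllHypersurfaces.coefficient
    simp
  have hdeg : Pool.Agent.Results.MP_a41896_nt.AlmostAllHypersurfaces.canonicalDegree n d
      (fun _ : Fin s => 1) Finset.univ = D - (n + 1) := by
    unfold Pool.Agent.Results.MP_a41896_nt.AlmostAllHypersurfaces.canonicalDegree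
    simp only [hco, one_mul]
    rw [hDdef]
  obtain ⟨η, C, hη, hmain⟩ :=
    (Pool.Agent.Results.MP_a41896_nt.AlmostAllHypersurfaces.result n d).2 (fun _ : Fin s => 1)
      Finset.univ (fun _ => le_rfl) 0 l τ θ ((n + 1) * θ) le_rfl hl0 hτ0 hθ1
      (by rw [hdeg]; linarith)
      (by
        simp only [hco]
        rw [Finset.sum_const, Finset.card_univ, Fintype.card_fin, nsmul_eq_mul, mul_one]
        linarith)
      (by
        simp only [hco]
        rw [Finset.sum_add_distrib, Finset.sum_const, Finset.card_univ, Fintype.card_fin,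
          nsmul_eq_mul, mul_one, ← hDdef]
        simp only [sub_self, mul_zero, Finset.sum_const_zero, add_zero]
        have h1 : D * θ = D + κ := by
          rw [hθ, mul_add, mul_one, mul_div_cancel₀ _ hD0.ne']
        have h2 : 0 < ε' * θ := mul_pos hε'0 (by linarith)
        have h3 : ((n : ℝ) + 1) * θ + l + τ * θ = D * θ - ε' * θ + l := by
          rw [hτ]
          ring
        rw [h3, h1, hl]
        linarith)
  set A : ℝ := ∑ j, Real.log ((Pool.Agent.R870.RC.Mo n (d j)).card : ℝ) with hA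
  have hMlog : ∀ j, 0 ≤ Real.log ((Pool.Agent.R870.RC.Mo n (d j)).card : ℝ) := fun j =>
    Real.log_natCast_nonneg _
  have hA0 : 0 ≤ A := Finset.sum_nonneg fun j _ => hMlog j
  refine ⟨η, max C A, hη, fun H hH => ?_⟩
  have hHr : (1 : ℝ) ≤ H := by exact_mod_cast hH
  have hH0 : (0 : ℝ) < H := by linarith
  have hlogH : 0 ≤ Real.log H := Real.log_nonneg hHr
  obtain ⟨B, hB, hBc⟩ :=
    Pool.Agent.Results.MP_a41896_nt.AlmostAllHypersurfaces.exists_ball n H hH θ (by linarith)
  obtain ⟨hfin, hcard⟩ := hmain H hH B hBc fun x hx => (hB x).1 hx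
  obtain ⟨-, -, -, hsys⟩ := Pool.Agent.R870.RC.main n s d hD
  have hsysc : (Systems n d H).ncard = (2 * H + 1) ^ (∑ j, (n + d j).choose (d j)) := by
    rw [Pool.Agent.R870.RC.card_systems, ← Finset.prod_pow_eq_pow_sum]
    refine Finset.prod_congr rfl fun i _ => ?_
    rw [Pool.Agent.R870.RC.card_FF, Pool.Agent.R870.RC.card_Mo]
  have hsub : {F ∈ Systems n d H | ¬ Holds n d ε κ (max C A) H F} ⊆
      Pool.Agent.Results.MP_a41896_nt.AlmostAllHypersurfaces.Bad n d (fun _ : Fin s => 1)
        Finset.univ 0 l τ H B := by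
    rintro F ⟨hF, hnot⟩
    by_contra hbad
    apply hnot
    intro x hx hxθ hx0 L _ _ S t E a c y hS hE hcan hc hy
    have hgood : l * Real.log H + τ * height x <
        ∑ p ∈ (∏ j, eval x (F j)).natAbs.primeFactors, Real.log (p : ℝ) := by
      by_contra hle
      push Not at hle
      refine hbad ⟨fun i => (hF i).1, fun i m => (hF i).2 m, ∅, by simp, by simp, x,
        (hB x).2 hxθ, hx, fun i _ => hx0 i, ?_, ?_⟩
      · intro i hi
        exact absurd (Finset.mem_univ i) hi
      · unfold Pool.Agent.Results.MP_a41896_nt.AlmostAllHypersurfaces.truncated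
        rw [Finset.sdiff_empty]
        exact hle
    have hdisc := Pool.Agent.U292.VC.disc_cover (L := L) (fun j => eval x (F j)) hx0 E a hE hcan
      S hS c y hc hy
    have hr : ∀ j, (1 : ℝ) ≤ ram E a j := fun j => by
      exact_mod_cast Pool.Agent.U292.VC.ram_pos a hE j
    have hval : ∀ j, 1 / (ram E a j : ℝ) * Real.log |((eval x (F j) : ℤ) : ℝ)| ≤
        1 / (ram E a j : ℝ) * (Real.log H + d j * height x) +
          Real.log ((Pool.Agent.R870.RC.Mo n (d j)).card : ℝ) := by
      intro j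
      have h1 := log_value hH (hF j) x (hx0 j)
      have h2 : 0 ≤ 1 / (ram E a j : ℝ) := by positivity
      have h3 : 1 / (ram E a j : ℝ) ≤ 1 := (div_le_one (by linarith [hr j])).2 (hr j)
      have h4 := mul_le_mul_of_nonneg_left h1 h2
      have h5 := mul_le_mul_of_nonneg_right h3 (hMlog j)
      linarith
    have hsum := Finset.sum_le_sum fun j (_ : j ∈ Finset.univ) => hval j
    rw [Finset.sum_add_distrib, ← hA] at hsum
    have hh0 := height_nonneg x
    have e1 : (∑ j, (1 - 1 / (ram E a j : ℝ)) * d j - (n + 1) - ε) * height x +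
        (∑ j, (1 - 1 / (ram E a j : ℝ)) - κ) * Real.log H =
        (D - n - 1 - ε) * height x + l * Real.log H -
          ∑ j, 1 / (ram E a j : ℝ) * (Real.log H + d j * height x) := by
      have e2 : ∑ j, (1 - 1 / (ram E a j : ℝ)) * d j = D - ∑ j, 1 / (ram E a j : ℝ) * d j := by
        rw [hDdef, ← Finset.sum_sub_distrib]
        exact Finset.sum_congr rfl fun j _ => by ring
      have e3 : ∑ j, (1 - 1 / (ram E a j : ℝ)) = s - ∑ j, 1 / (ram E a j : ℝ) := by
        rw [Finset.sum_sub_distrib, Finset.sum_const, Finset.card_univ, Fintype.card_fin,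
          nsmul_eq_mul, mul_one]
      have e4 : ∑ j, 1 / (ram E a j : ℝ) * (Real.log H + d j * height x) =
          (∑ j, 1 / (ram E a j : ℝ)) * Real.log H +
            (∑ j, 1 / (ram E a j : ℝ) * d j) * height x := by
        rw [Finset.sum_mul, Finset.sum_mul, ← Finset.sum_add_distrib]
        exact Finset.sum_congr rfl fun j _ => by ring
      rw [e2, e3, e4, hl]
      ring
    rw [e1]
    have h6 : (D - n - 1 - ε) * height x ≤ τ * height x :=
      mul_le_mul_of_nonneg_right hτε hh0
    have h7 : A ≤ max C A := le_max_right _ _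
    unfold logDisc
    linarith
  refine ⟨hsysc, hfin.subset hsub, ?_⟩
  have h1 := Set.ncard_le_ncard hsub hfin
  have h2 : (({F ∈ Systems n d H | ¬ Holds n d ε κ (max C A) H F}.ncard : ℕ) : ℝ) ≤
      C * (H : ℝ) ^ (∑ i, ((n + d i).choose n : ℝ) - η) :=
    (Nat.cast_le.2 h1).trans hcard
  refine h2.trans ?_
  have h3 : (H : ℝ) ^ (∑ i, ((n + d i).choose n : ℝ)) ≤ ((Systems n d H).ncard : ℝ) := by
    rw [hsysc]
    have h4 : (∑ i, ((n + d i).choose n : ℝ)) = ((∑ j, (n + d j).choose (d j) : ℕ) : ℝ) := by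
      push_cast
      refine Finset.sum_congr rfl fun j _ => ?_
      rw [Nat.choose_symm_add]
    rw [h4, Real.rpow_natCast]
    push_cast
    exact pow_le_pow_left₀ hH0.le (by linarith) _
  have h5 : 0 ≤ (H : ℝ) ^ (-η) := Real.rpow_nonneg hH0.le _
  have h6 : (H : ℝ) ^ (∑ i, ((n + d i).choose n : ℝ) - η) =
      (H : ℝ) ^ (-η) * (H : ℝ) ^ (∑ i, ((n + d i).choose n : ℝ)) := by
    rw [← Real.rpow_add hH0]
    congr 1
    ring
  rw [h6]
  have h8 : 0 ≤ (H : ℝ) ^ (∑ i, ((n + d i).choose n : ℝ)) := Real.rpow_nonneg hH0.le _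
  have h9 : C ≤ max C A := le_max_left _ _
  have h10 : 0 ≤ max C A := hA0.trans (le_max_right _ _)
  calc C * ((H : ℝ) ^ (-η) * (H : ℝ) ^ (∑ i, ((n + d i).choose n : ℝ)))
      ≤ max C A * ((H : ℝ) ^ (-η) * (H : ℝ) ^ (∑ i, ((n + d i).choose n : ℝ))) :=
        mul_le_mul_of_nonneg_right h9 (mul_nonneg h5 h8)
    _ ≤ max C A * ((H : ℝ) ^ (-η) * ((Systems n d H).ncard : ℝ)) :=
        mul_le_mul_of_nonneg_left (mul_le_mul_of_nonneg_left h3 h5) h10
    _ = _ := by ring

end Pool.Agent.Results.MP_9b9442_nt.RandomAbelianCovers
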