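import Mathlib
import Pool.Agent.U964.SP.Core

/-!
# Vojta's inequality for ALL points of ALL curves above the sparse rational points of the line

Let `a_1, …, a_q` be distinct rational numbers, for example `q = 3`, let `k` be any number field, `X`
any smooth projective curve over `k` and `t : X → ℙ¹` any finite map of degree `N` which is unramified
outside the fibres over the `a_j`; by Belyi's theorem every curve over every number field has such maps
with `q = 3`. Let `A` be the ring of the functions on `X` with poles only over `∞`: a Dedekind domain,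
finite over `k[t]`. The number of the geometric points of `X` over `a_j` is
`n_j = dim (A / rad (t - a_j))`, and `∑_j (1 - n_j / N) - 2 = (deg K_X) / N`, so that for a point `P` of
`X` with `t(P) = x` the height `h_{K_X}(P)` is `(∑_j (1 - n_j / N) - 2) h(x)` up to `ε h(x) + O(1)`.

We prove `h_{K_X}(P) ≤ d(P) + ε h(x) + O(1)` for all points `P` of `X`, of any degree (at most `N` over
`k`), above the sparse rational numbers `x`, without exceptions. Let `S` be a finite set of primes. A
number is called sparse if it is a sum of at most `l` `S`-units with small integer coefficients (at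
most `B H(x) ^ δ`). The number `x` is called sparse if its numerator, its denominator, the product `R`
of the primes outside `S` at which `x` meets some `a_j`, and the cofactor `R ^ m / G(x)` are sparse;
here `G(x)` is the value at `x` of the binary form with the zeros `a_j`. More generally a multiple
`κ R` of `R` is allowed in place of `R`; this costs the term `log κ`. (The points themselves, or
orders of the fields `k(P)`, are not supposed to be sparse.)
-/

set_option autoImplicit false

namespace Pool.Agent.Results.MP_9b9442_nt.SparseBasePoints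

open Polynomial IsDedekindDomain NumberField

/-- The function `t` on the curve with the ring of functions `A`. -/
noncomputable def coord (k A : Type) [Field k] [CommRing A] [Algebra k[X] A] : A :=
  algebraMap k[X] A X

/-- The (absolute) logarithmic discriminant `d(L) = log |disc L| / [L : ℚ]`. -/
noncomputable def logDisc (L : Type) [Field L] [NumberField L] : ℝ :=
  Real.log |(NumberField.discr L : ℝ)| / Module.finrank ℚ L

/-- The ideal of the reduced fibre over `a`. -/
noncomputable def fibre (k A : Type) [Field k] [CommRing A] [Algebra k A] [Algebra k[X] A]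
    (a : k) : Ideal A :=
  (Ideal.span {coord k A - algebraMap k A a}).radical

/-- `∑_j (1 - n_j / N)`, where `n_j = dim (A / rad (t - a_j))` is the number of the geometric points
over `a_j` and `N` is the rank of `A` over `k[t]`. If `t` is unramified outside the fibres over the
`a_j`, this is `2 + (deg K) / N`, where `K` is a canonical divisor of the curve. -/
noncomputable def degree (k A : Type) [Field k] [CommRing A] [Algebra k A]
    [Algebra k[X] A] {q : ℕ} (a : Fin q → k) : ℝ :=
  ∑ j, (1 - (Module.finrank k (A ⧸ fibre k A (a j)) : ℝ) / Module.finrank k[X] A)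

/-- the height `H(x) = max (|numerator|, denominator)` of a rational number -/
noncomputable def H (x : ℚ) : ℝ := max |(x.num : ℝ)| (x.den : ℝ)

/-- The value `∏_j (d_j s - n_j t)` at `x = s / t` of the form with the zeros `a_j = n_j / d_j`
(fractions in lowest terms): `x` meets some `a_j` at the primes that divide it. -/
def G {q : ℕ} (a : Fin q → ℚ) (x : ℚ) : ℤ := ∏ j, ((a j).den * x.num - (a j).num * x.den)

/-- the product of the primes outside `S` at which `x` meets some `a_j` -/
def radical {q : ℕ} (S : Finset ℕ) (a : Fin q → ℚ) (x : ℚ) : ℕ :=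
  ∏ p ∈ (G a x).natAbs.primeFactors \ S, p

/-- `u` is an `S`-unit: plus or minus a product of powers (with integer exponents) of the primes in
`S` -/
def IsSUnit (S : Finset ℕ) (u : ℚ) : Prop :=
  ∃ (σ : ℤ) (e : ℕ → ℤ), (σ = 1 ∨ σ = -1) ∧ u = σ * ∏ p ∈ S, (p : ℚ) ^ e p

/-- the rational number `z` is a sum of `l` `S`-units with integer coefficients of absolute value at
most `R` -/
def IsSparse (S : Finset ℕ) (l : ℕ) (R : ℝ) (z : ℚ) : Prop :=
  ∃ (u : Fin l → ℚ) (c : Fin l → ℤ), (∀ j, IsSUnit S (u j)) ∧ (∀ j, |(c j : ℝ)| ≤ R) ∧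
    z = ∑ j, u j * c j

/-- The sparse points `x` of the line, with the multiple `κ R` of the radical `R`: the numerator and
the denominator of `x`, the number `κ R` and the cofactor `(κ R) ^ m / G(x)` are sums of `l`
`S`-units with integer coefficients of absolute value at most `B H(x) ^ δ`. -/
def IsSparsePoint {q : ℕ} (S : Finset ℕ) (l m : ℕ) (B δ : ℝ) (a : Fin q → ℚ) (κ : ℕ) (x : ℚ) :
    Prop :=
  G a x ≠ 0 ∧ 0 < κ ∧ IsSparse S l (B * H x ^ δ) x.num ∧ IsSparse S l (B * H x ^ δ) x.den ∧
    IsSparse S l (B * H x ^ δ) (κ * radical S a x : ℕ) ∧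
    IsSparse S l (B * H x ^ δ) (((κ * radical S a x : ℕ) : ℚ) ^ m / G a x)

theorem fibre_ne {k A : Type} [Field k] [CommRing A] [IsDomain A] [Algebra k A] [Algebra k[X] A]
    [IsScalarTower k k[X] A] [FaithfulSMul k[X] A] (a : k) : fibre k A a ≠ ⊥ := by
  intro h
  have h1 : coord k A - algebraMap k A a ∈ fibre k A a :=
    Ideal.le_radical (Ideal.mem_span_singleton_self _)
  rw [h, Ideal.mem_bot, coord, IsScalarTower.algebraMap_apply k k[X] A, ← map_sub,
    map_eq_zero_iff _ (FaithfulSMul.algebraMap_injective k[X] A)] at h1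
  exact X_sub_C_ne_zero a h1

/-- no prime is counted if the equations of the divisor are `1 = 0` -/
theorem trn_zero {K k : Type} [Field K] [NumberField K] [Field k] [NumberField k] {m q : ℕ}
    {A : Fin m → Type} [∀ i, CommRing (A i)] [∀ i, Algebra k (A i)] [∀ i, Algebra k[X] (A i)]
    (a : Fin q → K) {L : Type} [Field L] [NumberField L] [Algebra K L] [Algebra k L]
    (φ : ∀ i, A i →ₐ[k] L) :
    Pool.Agent.Y557.OE.trnU (∅ : Finset (HeightOneSpectrum (𝓞 k))) a (fun _ _ => 1)
      (fun _ _ _ => (1 : A _)) ∅ φ = 0 := by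
  classical
  unfold Pool.Agent.Y557.OE.trnU
  rw [finsum_eq_zero_of_forall_eq_zero]
  intro w
  refine if_neg ?_
  rintro ⟨-, ⟨i, -, j, -, h⟩ | ⟨p, hp, -⟩⟩
  · have h1 := h 0
    rw [map_one, map_one] at h1
    exact lt_irrefl _ h1
  · exact absurd hp (Finset.notMem_empty p)

theorem G_ne {q : ℕ} {a : Fin q → ℚ} {x : ℚ} (h : G a x ≠ 0) (j : Fin q) : x ≠ a j := by
  rintro rfl
  apply h
  unfold G
  refine Finset.prod_eq_zero (Finset.mem_univ j) ?_
  ring

/-- **Main theorem.** Let `a_1, …, a_q` be distinct rational numbers, `q ≥ 2`, `S` a finite set of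
primes, `l`, `m` natural numbers, `B` and `ε > 0` real numbers. There is `δ > 0` such that for all
number fields `k` and all Dedekind domains `A`, finite over `k[t]` and containing it (the ring of
functions of a smooth affine curve over `k` which is finite over the `t`-line), there is a constant
`C` with `(∑_j (1 - n_j / N) - 2 - ε) log H(x) ≤ d(L) + log κ + C` for all sparse rational numbers
`x`, with the multiple `κ R` of the radical, all points `P` of the curve with `t(P) = x` and all
number fields `L` over which `P` is defined. -/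
theorem result (q : ℕ) (hq : 2 ≤ q) (a : Fin q → ℚ) (ha : Function.Injective a) (S : Finset ℕ)
    (hS : ∀ p ∈ S, p.Prime) (l m : ℕ) (B ε : ℝ) (hε : 0 < ε) :
    ∃ δ : ℝ, 0 < δ ∧ ∀ (k : Type) [Field k] [NumberField k] (A : Type) [CommRing A]
      [IsDedekindDomain A] [Algebra k A] [Algebra k[X] A] [IsScalarTower k k[X] A]
      [Module.Finite k[X] A] [FaithfulSMul k[X] A], ∃ C : ℝ,
      ∀ (κ : ℕ) (x : ℚ), IsSparsePoint S l m B δ a κ x →
        ∀ (L : Type) [Field L] [NumberField L] [Algebra k L] (φ : A →ₐ[k] L),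
          φ (coord k A) = algebraMap ℚ L x →
          (degree k A (fun j => (a j : k)) - 2 - ε) * Real.log (H x) ≤
            logDisc L + Real.log κ + C := by
  classical
  obtain ⟨δ, C0, hδ, hcore⟩ := Pool.Agent.U964.SP.core a ha hq S hS l m B (ε / 2) (by positivity)
  refine ⟨δ, hδ, ?_⟩
  intro k _ _ A _ _ _ _ _ _ _
  have hak : (fun j => (a j : k)) = fun j => algebraMap ℚ k (a j) := by
    funext j
    exact (eq_ratCast (algebraMap ℚ k) (a j)).symm
  obtain ⟨C1, hlev⟩ := Pool.Agent.Y557.OE.levU (K := ℚ) (k := k) (A := fun _ : Fin 1 => A)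
    (by omega : 1 ≤ q) a (fun _ _ => 1)
    (fun _ _ _ => (1 : A)) (fun _ j => fibre k A (algebraMap ℚ k (a j))) (fun _ j => fibre_ne _)
    (fun _ j l e he => by
      rw [one_mul]
      exact he) (G := ∅) (fun p hp => absurd hp (Finset.notMem_empty p))
    (∅ : Finset (HeightOneSpectrum (𝓞 k))) (ε := ε / 2) (by positivity)
  refine ⟨C0 + C1 - Real.log |(discr ℚ : ℝ)|, ?_⟩
  rintro κ x ⟨hG0, hκ, h1, h2, h3, h4⟩ L _ _ _ φ hφ
  have hxa := G_ne hG0
  have hf : ∀ (i : Fin 1) j, Pool.Agent.TH876.KR.form (Pool.Agent.Y728.AK.pK (a j))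
      (Pool.Agent.Y728.MN.pt ((fun _ : Fin 1 => x) i)) ≠ 0 := fun i j =>
    Pool.Agent.Y728.MN.form_pt_ne (hxa j).symm
  have hinj : Function.Injective (fun _ : Fin 1 => x) := Function.injective_of_subsingleton _
  have hGG : ∀ p ∈ (∅ : Finset (Fin 1 × Fin 1)), p.1 < p.2 :=
    fun p hp => absurd hp (Finset.notMem_empty p)
  have hc := hcore (fun _ => x) hxa hf hinj hGG κ
    (((κ * radical S a x : ℕ) : ℚ) ^ m / G a x) hκ (by
      have hne : ((Pool.Agent.U964.SP.gx a x : ℤ) : ℚ) ≠ 0 := by exact_mod_cast hG0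
      change ((κ * radical S a x : ℕ) : ℚ) ^ m =
        (Pool.Agent.U964.SP.gx a x : ℚ) *
          (((κ * radical S a x : ℕ) : ℚ) ^ m / (Pool.Agent.U964.SP.gx a x : ℚ))
      field_simp) h1 h2 h3 h4
  have hl := hlev (fun _ => x) hf hinj L (fun _ => φ) (fun _ => hφ)
  rw [trn_zero, add_zero, Fin.sum_univ_one] at hl
  have hh : Height.logHeight₁ x = Real.log (H x) := by
    rw [Rat.logHeight₁_eq_log_max]
    unfold H
    congr 1
    push_cast
    rw [Nat.cast_natAbs, Int.cast_abs]
  obtain ⟨W, hW⟩ : ∃ W : ℝ, W = Pool.Agent.Y728.MN.wt (Pool.Agent.Y728.MN.bdT_fin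
    (S := ((∅ : Finset (HeightOneSpectrum (𝓞 ℚ))) : Set (HeightOneSpectrum (𝓞 ℚ))))
    (a := fun j => Pool.Agent.Y728.AK.pK (a j)) hf hinj Finset.univ hGG).toFinset := ⟨_, rfl⟩
  rw [← hW] at hc hl
  rw [hh] at hc hl
  obtain ⟨mL, hmL⟩ : ∃ mL : ℝ, mL = (Module.finrank ℚ L : ℝ) := ⟨_, rfl⟩
  have hm0 : 0 < mL := by rw [hmL]; exact_mod_cast Module.finrank_pos
  obtain ⟨lL, hlL⟩ : ∃ lL : ℝ, lL = Real.log |(discr L : ℝ)| := ⟨_, rfl⟩
  obtain ⟨n, hn⟩ : ∃ n : ℝ, n = (∑ j, (Module.finrank k (A ⧸ fibre k A (algebraMap ℚ k (a j))) : ℝ)) /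
    Module.finrank k[X] A := ⟨_, rfl⟩
  have hdeg : degree k A (fun j => (a j : k)) = q - n := by
    rw [hak]
    unfold degree
    rw [Finset.sum_sub_distrib, Finset.sum_const, Finset.card_univ, Fintype.card_fin,
      nsmul_eq_mul, mul_one, ← Finset.sum_div, hn]
  rw [← hmL, ← hlL, ← hn] at hl
  rw [hdeg]
  unfold logDisc
  rw [← hmL, ← hlL]
  have h5 : mL * ((q - n - 2 - ε) * Real.log (H x)) ≤
      lL + mL * (Real.log κ + (C0 + C1 - Real.log |(discr ℚ : ℝ)|)) := by
    have h6 := mul_le_mul_of_nonneg_left hc hm0.le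
    nlinarith
  have h7 : (q - n - 2 - ε) * Real.log (H x) ≤
      (lL + mL * (Real.log κ + (C0 + C1 - Real.log |(discr ℚ : ℝ)|))) / mL := by
    rw [le_div_iff₀ hm0]
    linarith
  refine h7.trans (le_of_eq ?_)
  field_simp
  ring

end Pool.Agent.Results.MP_9b9442_nt.SparseBasePoints
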